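import Pool.Agent.Helper68.ES.St1

/-!
# MP_cb927e_an, project ES, module DRT: the dual ridge theorem
-/

set_option autoImplicit false

open MeasureTheory Set Filter Topology
open scoped ENNReal RealInnerProductSpace

namespace Pool.Agent.Helper15.ES

open Pool.Agent.Helper68.ES Pool.Agent.Helper68.EP Pool.Agent.Helper20.RG
open Pool.Agent.Helper20.RL (RQ Rich BM Fml Hit)
open Pool.Agent.Helper68.LM (Pl BB Bd Av HL ft fm DQ)

/-- enumeration of a finite set -/
theorem enum_DRT (S : Finset ℕ) : ∃ e : ℕ → ℕ, Set.InjOn e (Finset.range S.card : Set ℕ) ∧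
    (Finset.range S.card).image e = S := by
  classical
  refine ⟨fun i => if h : i < S.card then ((S.equivFin.symm ⟨i, h⟩ : S) : ℕ) else 0, ?_, ?_⟩
  · intro i hi j hj hij
    rw [Finset.coe_range, Set.mem_Iio] at hi hj
    simp only [dif_pos hi, dif_pos hj] at hij
    have h1 := S.equivFin.symm.injective (Subtype.ext hij)
    exact congrArg Fin.val h1
  · ext x
    rw [Finset.mem_image]
    constructor
    · rintro ⟨i, hi, rfl⟩
      rw [Finset.mem_range] at hi
      simp only [dif_pos hi]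
      exact (S.equivFin.symm ⟨i, hi⟩).2
    · intro hx
      refine ⟨(S.equivFin ⟨x, hx⟩).1, ?_, ?_⟩
      · rw [Finset.mem_range]
        exact (S.equivFin ⟨x, hx⟩).2
      · simp only [dif_pos (S.equivFin ⟨x, hx⟩).2, Fin.eta, Equiv.symm_apply_apply]

/-- greedy colouring -/
theorem col_DRT (R : ℕ → ℕ → Prop) (hR : ∀ i j, R i j → R j i) (n : ℕ) (J : Finset ℕ)
    (h : ∀ j ∈ J, {j' : ℕ | j' ∈ J ∧ j' ≠ j ∧ R j' j}.ncard < n) :
    ∃ c : ℕ → ℕ, (∀ j ∈ J, c j < n) ∧ ∀ i ∈ J, ∀ j ∈ J, i ≠ j → c i = c j → ¬ R i j := by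
  classical
  induction J using Finset.induction_on with
  | empty => exact ⟨fun _ => 0, by simp, by simp⟩
  | insert a J ha ih =>
    obtain ⟨c, hc1, hc2⟩ := ih (by
      intro j hj
      refine lt_of_le_of_lt (Set.ncard_le_ncard ?_ ?_) (h j (Finset.mem_insert_of_mem hj))
      · intro x hx
        exact ⟨Finset.mem_insert_of_mem hx.1, hx.2⟩
      · exact ((insert a J).finite_toSet).subset fun x hx => hx.1)
    set Nb : Set ℕ := {j' : ℕ | j' ∈ insert a J ∧ j' ≠ a ∧ R j' a} with hNb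
    have hNf : Nb.Finite := ((insert a J).finite_toSet).subset fun x hx => hx.1
    have h1 : (c '' Nb).ncard < n :=
      lt_of_le_of_lt (Set.ncard_image_le hNf) (h a (Finset.mem_insert_self a J))
    obtain ⟨m, hm1, hm2⟩ : ∃ m < n, m ∉ c '' Nb := by
      by_contra hcon
      push Not at hcon
      have h2 : (Finset.range n : Set ℕ) ⊆ c '' Nb := by
        intro m hm
        rw [Finset.coe_range, Set.mem_Iio] at hm
        exact hcon m hm
      have h3 := Set.ncard_le_ncard h2 (hNf.image c)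
      rw [Set.ncard_coe_finset, Finset.card_range] at h3
      omega
    refine ⟨fun j => if j = a then m else c j, ?_, ?_⟩
    · intro j hj
      by_cases hja : j = a
      · simp only [if_pos hja]
        exact hm1
      · simp only [if_neg hja]
        exact hc1 j (Finset.mem_of_mem_insert_of_ne hj hja)
    · intro i hi j hj hij hcij hRij
      by_cases hia : i = a
      · have hja : j ≠ a := fun h0 => hij (hia.trans h0.symm)
        simp only [if_pos hia, if_neg hja] at hcij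
        apply hm2
        rw [hcij]
        refine ⟨j, ⟨hj, hja, ?_⟩, rfl⟩
        rw [← hia]
        exact hR _ _ hRij
      · by_cases hja : j = a
        · simp only [if_neg hia, if_pos hja] at hcij
          apply hm2
          rw [← hcij]
          refine ⟨i, ⟨hi, hia, ?_⟩, rfl⟩
          rw [← hja]
          exact hRij
        · simp only [if_neg hia, if_neg hja] at hcij
          exact hc2 i (Finset.mem_of_mem_insert_of_ne hi hia) j
            (Finset.mem_of_mem_insert_of_ne hj hja) hij hcij hRij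

/-- separated slopes -/
theorem card_DRT (g : ℕ) (s : ℕ → ℝ) (S : Finset ℕ) (h1 : ∀ j ∈ S, |s j| ≤ 1)
    (h2 : ∀ i ∈ S, ∀ j ∈ S, i ≠ j → (2 : ℝ) ^ (-(g : ℤ)) < |s i - s j|) :
    (S.card : ℝ) ≤ 3 * 2 ^ g := by
  classical
  have hg : (0 : ℝ) < 2 ^ g := by positivity
  let f : ℕ → ℤ := fun j => ⌊(s j + 1) * 2 ^ g⌋
  have hinj : Set.InjOn f (S : Set ℕ) := by
    intro i hi j hj hij
    by_contra hne
    have h3 := h2 i hi j hj hne
    have h4 : |(s i + 1) * 2 ^ g - (s j + 1) * 2 ^ g| < 1 := by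
      have h5 : ⌊(s i + 1) * 2 ^ g⌋ = ⌊(s j + 1) * 2 ^ g⌋ := hij
      exact Int.abs_sub_lt_one_of_floor_eq_floor h5
    have h6 : (s i + 1) * 2 ^ g - (s j + 1) * 2 ^ g = (s i - s j) * 2 ^ g := by ring
    rw [h6, abs_mul, abs_of_pos hg] at h4
    rw [zpow_neg, zpow_natCast] at h3
    have h7 := mul_lt_mul_of_pos_right h3 hg
    rw [inv_mul_cancel₀ hg.ne'] at h7
    linarith
  have hmaps : ∀ j ∈ S, f j ∈ Finset.Icc (0 : ℤ) (2 * 2 ^ g) := by
    intro j hj
    have h3 := abs_le.1 (h1 j hj)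
    rw [Finset.mem_Icc]
    constructor
    · apply Int.floor_nonneg.2
      have : 0 ≤ s j + 1 := by linarith [h3.1]
      positivity
    · have h4 : (s j + 1) * 2 ^ g ≤ ((2 * 2 ^ g : ℤ) : ℝ) := by
        push_cast
        have : s j + 1 ≤ 2 := by linarith [h3.2]
        exact mul_le_mul_of_nonneg_right this hg.le
      have h5 := Int.floor_le_floor h4
      rw [Int.floor_intCast] at h5
      exact h5
  have hcard := Finset.card_le_card_of_injOn f hmaps hinj
  rw [Int.card_Icc] at hcard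
  have h8 : ((2 * 2 ^ g + 1 - 0 : ℤ)).toNat = 2 * 2 ^ g + 1 := by
    rw [sub_zero]
    have : (2 * 2 ^ g + 1 : ℤ) = ((2 * 2 ^ g + 1 : ℕ) : ℤ) := by push_cast; ring
    rw [this, Int.toNat_natCast]
  rw [h8] at hcard
  have h9 : (S.card : ℝ) ≤ ((2 * 2 ^ g + 1 : ℕ) : ℝ) := by exact_mod_cast hcard
  push_cast at h9
  have h10 : (1 : ℝ) ≤ 2 ^ g := one_le_pow₀ (by norm_num)
  linarith

theorem hDRT (hDRS : StDRS) : Pool.Agent.Helper68.ES.StDRT := by
  classical
  obtain ⟨C, hC1, hC⟩ := hDRS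
  refine ⟨2 * C, by linarith, ?_⟩
  intro J g s K a b D θ nst hs hK hD hCD hθ hg hbg hDn hnst hnb
  have hCD' : C * D ≤ θ := by
    have : 0 ≤ C * D := by positivity
    linarith
  set n₀ := ⌈nst⌉₊ with hn₀
  have hn1 : nst ≤ n₀ := Nat.le_ceil nst
  have hn2 : (n₀ : ℝ) ≤ 2 * nst := by
    have h1 := Nat.ceil_lt_add_one (show 0 ≤ nst by linarith)
    linarith
  obtain ⟨c, hc1, hc2⟩ := col_DRT (fun i j => |s i - s j| ≤ (2 : ℝ) ^ (-(g : ℤ)))
    (fun i j h => by rw [abs_sub_comm]; exact h) n₀ J (by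
      intro j hj
      have hfin : {j' : ℕ | j' ∈ J ∧ |s j' - s j| ≤ (2 : ℝ) ^ (-(g : ℤ))}.Finite :=
        J.finite_toSet.subset fun x hx => hx.1
      have hmem : j ∈ {j' : ℕ | j' ∈ J ∧ |s j' - s j| ≤ (2 : ℝ) ^ (-(g : ℤ))} := by
        refine ⟨hj, ?_⟩
        rw [sub_self, abs_zero]
        positivity
      have h1 : {j' : ℕ | j' ∈ J ∧ j' ≠ j ∧ |s j' - s j| ≤ (2 : ℝ) ^ (-(g : ℤ))} ⊆
          {j' : ℕ | j' ∈ J ∧ |s j' - s j| ≤ (2 : ℝ) ^ (-(g : ℤ))} \ {j} := by
        rintro x ⟨hx1, hx2, hx3⟩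
        exact ⟨⟨hx1, hx3⟩, hx2⟩
      have h2 := Set.ncard_le_ncard h1 hfin.diff
      have h3 := Set.ncard_diff_singleton_lt_of_mem hmem hfin
      have h4 := hnb j hj
      have h5 : ({j' : ℕ | j' ∈ J ∧ |s j' - s j| ≤ (2 : ℝ) ^ (-(g : ℤ))}.ncard : ℝ) ≤ n₀ :=
        h4.trans hn1
      have h6 : {j' : ℕ | j' ∈ J ∧ |s j' - s j| ≤ (2 : ℝ) ^ (-(g : ℤ))}.ncard ≤ n₀ := by
        exact_mod_cast h5
      omega)
  have hclass : ∀ i ∈ Finset.range n₀, ∑ j ∈ J with c j = i,
      volume (K ∩ Ri K (s j) a b θ ((2 : ℝ) ^ a)) ≤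
        ENNReal.ofReal (C * (1 + D / θ ^ 2)) * volume K := by
    intro i _
    set S := J.filter (fun j => c j = i) with hS
    have hsub : ∀ j ∈ S, j ∈ J ∧ c j = i := fun j hj => Finset.mem_filter.1 hj
    obtain ⟨e, he1, he2⟩ := enum_DRT S
    have hemem : ∀ j < S.card, e j ∈ S := by
      intro j hj
      rw [← he2]
      exact Finset.mem_image_of_mem e (Finset.mem_range.2 hj)
    have hsep : ∀ i' ∈ S, ∀ j ∈ S, i' ≠ j → (2 : ℝ) ^ (-(g : ℤ)) < |s i' - s j| := by
      intro i' hi' j hj hne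
      have h1 := hc2 i' (hsub i' hi').1 j (hsub j hj).1 hne
        ((hsub i' hi').2.trans (hsub j hj).2.symm)
      exact not_le.1 h1
    have hcard := card_DRT g s S (fun j hj => hs j (hsub j hj).1) hsep
    have hmain := hC S.card g (fun j => s (e j)) K a b D θ
      (fun j hj => hs _ (hsub _ (hemem j hj)).1) hK hD hCD' hθ hg hbg hDn hcard (by
        intro j hj j' hj' hne
        apply hsep _ (hemem j hj) _ (hemem j' hj')
        intro h0
        apply hne
        exact he1 (by rw [Finset.coe_range]; exact hj) (by rw [Finset.coe_range]; exact hj') h0)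
    have hsum : ∑ j ∈ S, volume (K ∩ Ri K (s j) a b θ ((2 : ℝ) ^ a)) =
        ∑ j ∈ Finset.range S.card, volume (K ∩ Ri K (s (e j)) a b θ ((2 : ℝ) ^ a)) := by
      conv_lhs => rw [← he2]
      rw [Finset.sum_image he1]
    rw [hsum]
    exact hmain
  have hdec : ∑ j ∈ J, volume (K ∩ Ri K (s j) a b θ ((2 : ℝ) ^ a)) =
      ∑ i ∈ Finset.range n₀, ∑ j ∈ J with c j = i,
        volume (K ∩ Ri K (s j) a b θ ((2 : ℝ) ^ a)) := by
    rw [Finset.sum_fiberwise_of_maps_to]
    intro j hj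
    exact Finset.mem_range.2 (hc1 j hj)
  rw [hdec]
  refine (Finset.sum_le_sum hclass).trans ?_
  rw [Finset.sum_const, Finset.card_range, nsmul_eq_mul, ← mul_assoc]
  gcongr
  have h1 : ((n₀ : ℕ) : ℝ≥0∞) = ENNReal.ofReal (n₀ : ℝ) := by
    rw [ENNReal.ofReal_natCast]
  rw [h1, ← ENNReal.ofReal_mul (Nat.cast_nonneg _)]
  apply ENNReal.ofReal_le_ofReal
  have hθ2 : 0 ≤ 1 + D / θ ^ 2 := by positivity
  have h2 : 0 ≤ C * (1 + D / θ ^ 2) := by positivity
  have h3 := mul_le_mul_of_nonneg_right hn2 h2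
  calc (n₀ : ℝ) * (C * (1 + D / θ ^ 2)) ≤ 2 * nst * (C * (1 + D / θ ^ 2)) := h3
    _ = 2 * C * nst * (1 + D / θ ^ 2) := by ring

end Pool.Agent.Helper15.ES
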