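import Pool.Agent.Helper68.ES.St5

/-!
Project ES (MP_cb927e_an), module PXH: the hits of one direction.
-/

set_option autoImplicit false

namespace Pool.Agent.Helper15.ES

open MeasureTheory Set Filter Topology
open scoped ENNReal RealInnerProductSpace
open Pool.Agent.Helper68.ES Pool.Agent.Helper68.EP Pool.Agent.Helper20.RG
open Pool.Agent.Helper20.RL (RQ Rich BM Fml Hit)
open Pool.Agent.Helper68.LM (Pl BB Bd Av HL ft fm DQ)

theorem hPXH (hLGR : Pool.Agent.Helper20.RL.StLGR) (hLFM : Pool.Agent.Helper20.RL.StLFM)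
    (hLGE : Pool.Agent.Helper20.RL.StLGE) : Pool.Agent.Helper68.ES.StPXH := by
  intro Δ ct u j k θ F hF hθ
  obtain ⟨hL1, hL2⟩ := hLFM
  have hcell : ∀ y ∈ Rc Δ u j k θ F,
      RQ (Δ.sl u j) (k - (u : ℤ)) (k - (Δ.fl u j : ℤ)) y ⊆ Rc Δ u j k θ F := by
    intro y hy z hz
    exact ((hL1 F _ _ _ θ).2 y z hz).2 hy
  have hmeas : MeasurableSet (Rc Δ u j k θ F) := (hL1 F _ _ _ θ).1
  have hfml : Fml F (Δ.sl u j) θ (Rc Δ u j k θ F) (fun _ => k - (u : ℤ))
      (fun _ => k - (Δ.fl u j : ℤ)) := by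
    constructor
    · intro z hz z' hz'
      exact ⟨hcell z hz hz', rfl, rfl⟩
    · intro z hz
      exact hz
  have hvol : volume (Rc Δ u j k θ F) ≤ ENNReal.ofReal (1 / θ) * volume F := by
    refine (hL2 F _ θ _ _ _ hF.1 hfml hθ).2.2.2.trans ?_
    gcongr
    exact inter_subset_left
  refine ⟨hcell, hmeas, hvol, ?_⟩
  set V := Rc Δ u j k θ F with hV
  set W : Set Pl := {x | ∃ y ∈ V, |x 0 - y 0| ≤ (3 : ℕ) * (2 : ℝ) ^ (k - (u : ℤ)) ∧
    |pr (Δ.sl u j) x - pr (Δ.sl u j) y| ≤ (2 : ℕ) * (2 : ℝ) ^ (k - (Δ.fl u j : ℤ))} with hW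
  have hsub : {x | j ∈ Hs Δ ct u k θ F x} ⊆ (fun x => x + -((2 : ℝ) ^ k • ct u j)) ⁻¹' W := by
    rintro x ⟨_, y, hy, h1, h2⟩
    rw [sub_eq_add_neg] at h1 h2
    refine ⟨y, hy, ?_, ?_⟩
    · push_cast
      exact h1
    · push_cast
      exact h2
  calc volume {x | j ∈ Hs Δ ct u k θ F x}
      ≤ volume ((fun x => x + -((2 : ℝ) ^ k • ct u j)) ⁻¹' W) := measure_mono hsub
    _ = volume W := measure_preimage_add_right _ _ _
    _ ≤ ENNReal.ofReal ((2 * (3 : ℕ) + 1) * (2 * (2 : ℕ) + 1)) * volume V :=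
        hLGE (Δ.sl u j) _ _ 3 2 V hcell
    _ ≤ ENNReal.ofReal ((2 * (3 : ℕ) + 1) * (2 * (2 : ℕ) + 1)) *
          (ENNReal.ofReal (1 / θ) * volume F) := by gcongr
    _ = ENNReal.ofReal (35 / θ) * volume F := by
        rw [← mul_assoc, ← ENNReal.ofReal_mul (by positivity)]
        congr 2
        push_cast
        ring

end Pool.Agent.Helper15.ES
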