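import Pool.Agent.Helper68.ES.St3

/-!
Project ES (MP_cb927e_an), module SPA: the sparse part.
-/

set_option autoImplicit false

namespace Pool.Agent.Helper15.ES

open MeasureTheory Set Filter Topology
open scoped ENNReal RealInnerProductSpace
open Pool.Agent.Helper68.ES Pool.Agent.Helper68.EP Pool.Agent.Helper20.RG
open Pool.Agent.Helper20.RL (RQ Rich BM Fml Hit)
open Pool.Agent.Helper68.LM (Pl BB Bd Av HL ft fm DQ)

/-! ### dyadic squares -/

private lemma dq3_le (G : Set Pl) (b : ℤ) (z : Pl) (c : ℝ≥0∞)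
    (h : ∀ y ∈ G, volume (G ∩ DQ b y) ≤ c) : volume (G ∩ DQ3 b z) ≤ 9 * c := by
  set S : ℤ → ℤ → Set Pl := fun i j =>
    {y | ⌊y 0 / (2 : ℝ) ^ b⌋ = ⌊z 0 / (2 : ℝ) ^ b⌋ + i ∧
      ⌊y 1 / (2 : ℝ) ^ b⌋ = ⌊z 1 / (2 : ℝ) ^ b⌋ + j} with hS
  have hsub : G ∩ DQ3 b z ⊆
      ⋃ i ∈ (Finset.Icc (-1 : ℤ) 1), ⋃ j ∈ (Finset.Icc (-1 : ℤ) 1), G ∩ S i j := by
    rintro y ⟨hyG, hy0, hy1⟩
    rw [abs_le] at hy0 hy1
    simp only [mem_iUnion]
    refine ⟨⌊y 0 / (2 : ℝ) ^ b⌋ - ⌊z 0 / (2 : ℝ) ^ b⌋, ?_,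
      ⌊y 1 / (2 : ℝ) ^ b⌋ - ⌊z 1 / (2 : ℝ) ^ b⌋, ?_, hyG, ?_, ?_⟩
    · rw [Finset.mem_Icc]; exact hy0
    · rw [Finset.mem_Icc]; exact hy1
    · ring
    · ring
  have hS1 : ∀ i j, volume (G ∩ S i j) ≤ c := by
    intro i j
    rcases (G ∩ S i j).eq_empty_or_nonempty with he | ⟨y, hyG, hy0, hy1⟩
    · rw [he]; simp
    · refine (measure_mono ?_).trans (h y hyG)
      rintro x ⟨hxG, hx0, hx1⟩
      refine ⟨hxG, ?_⟩
      intro t
      fin_cases t
      · exact hx0.trans hy0.symm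
      · exact hx1.trans hy1.symm
  have hcard : (Finset.Icc (-1 : ℤ) 1).card = 3 := by decide
  calc volume (G ∩ DQ3 b z)
      ≤ volume (⋃ i ∈ (Finset.Icc (-1 : ℤ) 1), ⋃ j ∈ (Finset.Icc (-1 : ℤ) 1), G ∩ S i j) :=
        measure_mono hsub
    _ ≤ ∑ i ∈ (Finset.Icc (-1 : ℤ) 1), volume (⋃ j ∈ (Finset.Icc (-1 : ℤ) 1), G ∩ S i j) :=
        measure_biUnion_finset_le _ _
    _ ≤ ∑ i ∈ (Finset.Icc (-1 : ℤ) 1), ∑ j ∈ (Finset.Icc (-1 : ℤ) 1), volume (G ∩ S i j) :=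
        Finset.sum_le_sum fun i _ => measure_biUnion_finset_le _ _
    _ ≤ ∑ _i ∈ (Finset.Icc (-1 : ℤ) 1), ∑ _j ∈ (Finset.Icc (-1 : ℤ) 1), c :=
        Finset.sum_le_sum fun i _ => Finset.sum_le_sum fun j _ => hS1 i j
    _ = 9 * c := by
        simp only [Finset.sum_const, hcard, nsmul_eq_mul, ← mul_assoc]
        norm_num

/-- a set with density at most `d` in all squares of the scale `b₀` which it meets has density at most `d` in the
bigger squares -/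
private lemma dq_up (hLGR : Pool.Agent.Helper20.RL.StLGR) (hEQ : Pool.Agent.Helper68.EP.StEQ)
    (G : Set Pl) (b₀ b : ℤ) (d : ℝ≥0∞) (hb : b₀ ≤ b)
    (h : ∀ y ∈ G, volume (G ∩ DQ b₀ y) ≤ d * volume (DQ b₀ y)) (y : Pl) :
    volume (G ∩ DQ b y) ≤ d * volume (DQ b y) := by
  obtain ⟨hq1, hq2, hq3, hq4, hq5, hq6⟩ := hEQ
  obtain ⟨hg1, hg2, hg3, hg4, hg5⟩ := hLGR
  have hmeas : ∀ (b : ℤ) (z : Pl), MeasurableSet (DQ b z) := by
    intro b z
    rw [(hq1 b z).2.2.2]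
    exact (hg1 0 b b z).1
  set φ : Pl → ℤ × ℤ := fun x => (⌊x 0 / (2 : ℝ) ^ b₀⌋, ⌊x 1 / (2 : ℝ) ^ b₀⌋) with hφ
  have hfib : ∀ x : Pl, φ ⁻¹' {φ x} = DQ b₀ x := by
    intro x
    ext w
    simp only [mem_preimage, mem_singleton_iff, hφ, Prod.mk.injEq]
    constructor
    · rintro ⟨h0, h1⟩ i
      fin_cases i
      · exact h0
      · exact h1
    · intro hw
      exact ⟨hw 0, hw 1⟩
  have hfm : ∀ n : ℤ × ℤ, MeasurableSet (DQ b y ∩ φ ⁻¹' {n}) := by
    intro n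
    rcases (φ ⁻¹' {n}).eq_empty_or_nonempty with he | ⟨x, hx⟩
    · rw [he, inter_empty]; exact MeasurableSet.empty
    · have hx' : φ x = n := hx
      rw [← hx', hfib]
      exact (hmeas b y).inter (hmeas b₀ x)
  have hcov : ∀ A : Set Pl, A = ⋃ n, A ∩ φ ⁻¹' {n} := by
    intro A
    ext x
    simp
  have hdisj : Pairwise (Function.onFun Disjoint fun n => DQ b y ∩ φ ⁻¹' {n}) := by
    intro n n' hn
    rw [Function.onFun, Set.disjoint_left]
    rintro x ⟨_, hx⟩ ⟨_, hx'⟩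
    exact hn (hx.symm.trans hx')
  have hS : volume (DQ b y) = ∑' n, volume (DQ b y ∩ φ ⁻¹' {n}) := by
    conv_lhs => rw [hcov (DQ b y)]
    exact measure_iUnion hdisj hfm
  have hG : volume (G ∩ DQ b y) ≤ ∑' n, volume (G ∩ DQ b y ∩ φ ⁻¹' {n}) := by
    conv_lhs => rw [hcov (G ∩ DQ b y)]
    exact measure_iUnion_le _
  rw [hS, ← ENNReal.tsum_mul_left]
  refine hG.trans (ENNReal.tsum_le_tsum fun n => ?_)
  rcases (G ∩ DQ b y ∩ φ ⁻¹' {n}).eq_empty_or_nonempty with he | ⟨x, ⟨hxG, hxS⟩, hx⟩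
  · rw [he]; simp
  · have hx' : φ x = n := hx
    have hsub : DQ b₀ x ⊆ DQ b y := by
      have h1 : DQ b x = DQ b y := by
        have e1 := (hq1 b y).2.2.2
        have e2 := (hq1 b x).2.2.2
        have := hg2 0 b b y x (by rw [← e1]; exact hxS)
        rw [e1, e2, this]
      rw [← h1]
      exact hq4 b₀ b x hb
    rw [← hx', hfib, inter_eq_right.2 hsub]
    refine (measure_mono ?_).trans (h x hxG)
    rintro w ⟨⟨hwG, _⟩, hw⟩
    exact ⟨hwG, hw⟩

private lemma vol_DQ (hLGR : Pool.Agent.Helper20.RL.StLGR) (hEQ : Pool.Agent.Helper68.EP.StEQ)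
    (b : ℤ) (y : Pl) : volume (DQ b y) = ENNReal.ofReal ((4 : ℝ) ^ b) := by
  rw [(hEQ.1 b y).2.2.2, (hLGR.1 0 b b y).2.1, zpow_add₀ (by norm_num), ← mul_zpow]
  norm_num

/-- the density clause -/
private lemma dn_of (hLGR : Pool.Agent.Helper20.RL.StLGR) (hEQ : Pool.Agent.Helper68.EP.StEQ)
    (G : Set Pl) (b₀ : ℤ) (d : ℝ) (hd : 0 ≤ d)
    (h : ∀ y ∈ G, volume (G ∩ DQ b₀ y) ≤ ENNReal.ofReal (d * (4 : ℝ) ^ b₀)) :
    Dn G (9 * d) b₀ := by
  intro z _ b hb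
  have h1 : ∀ y ∈ G, volume (G ∩ DQ b y) ≤ ENNReal.ofReal (d * (4 : ℝ) ^ b) := by
    intro y _
    have := dq_up hLGR hEQ G b₀ b (ENNReal.ofReal d) hb (by
      intro y hy
      rw [vol_DQ hLGR hEQ, ← ENNReal.ofReal_mul hd]
      exact h y hy) y
    rwa [vol_DQ hLGR hEQ, ← ENNReal.ofReal_mul hd] at this
  refine (dq3_le G b z _ h1).trans ?_
  rw [show (9 : ℝ≥0∞) = ENNReal.ofReal 9 by norm_num, ← ENNReal.ofReal_mul (by norm_num)]
  apply ENNReal.ofReal_le_ofReal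
  apply le_of_eq
  ring

theorem hSPA (hLGR : Pool.Agent.Helper20.RL.StLGR) (hEQ : Pool.Agent.Helper68.EP.StEQ)
    (hEFB : Pool.Agent.Helper68.EP.StEFB) (hKPF : StKPF) (hSUP : StSUP) (hAGE : StAGE)
    (hPLM : StPLM) (hDRC : StDRC) (hLAY : StLAY) : Pool.Agent.Helper68.ES.StSPA := by
  obtain ⟨CA, hCA1, hAGE⟩ := hAGE
  obtain ⟨CD, hCD1, hDRC⟩ := hDRC
  refine ⟨64 * CA + 322560 * CD, by linarith, ?_⟩
  intro p A CH E H u q g L₀ J sl fl D θ m al lam M d₀ ω hp1 hp2 hA hCH hCls hChg hD hE hH hHE hH0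
    hlam hlam1 hθ hθ1 hm hq hcg hint hM hCM hyou hqL hg2 hug hL hd₀ hCd hsp
  obtain ⟨hs1, hs2, hs3, hs4⟩ := hSUP p CH E u q J sl fl D θ m ω hChg hE hq hD hθ hm
  have hpow : (0 : ℝ) < (2 : ℝ) ^ (-(p * u)) := Real.rpow_pos_of_pos (by norm_num) _
  set D' : ℝ := M * (2 : ℝ) ^ (-(p * u)) with hD'
  have hD'0 : 0 < D' := mul_pos hM hpow
  have hg1 : 1 ≤ g := by omega
  have hgR : (0 : ℝ) < g := by exact_mod_cast hg1
  have hLR : (1 : ℝ) ≤ L₀ := by exact_mod_cast hL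
  have hFbE : ∀ z ∈ H, ∃ b : ℤ, z ∉ Fb E D b := by
    intro z hz
    have h1 := hcg z hz
    have h2 : cg p u J ω z ≠ 0 := by
      intro h0
      rw [h0] at h1
      have : ENNReal.ofReal lam = 0 := le_antisymm h1 bot_le
      rw [ENNReal.ofReal_eq_zero] at this
      linarith
    exact (hs2 z h2).2
  obtain ⟨hKap, hkp⟩ := hKPF H E D' D hH hE hHE hD'0 hD hFbE
  set κ : Pl → ℤ := kp H E D' D with hκ
  obtain ⟨⟨hNsBM, hNsH, hNsκ⟩, hLAY2, hLAY3⟩ := hLAY H κ g D' d₀ hH hKap hg1 hD'0 hd₀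
  set H₁ : Set Pl := H \ Ns H κ g d₀ with hH₁
  have hH₁H : H₁ ⊆ H := diff_subset
  have hH₁BM : BM H₁ := ⟨hH.1.diff hNsBM.1, hH.2.subset hH₁H⟩
  have hHfin : volume H ≠ ∞ := hH.2.measure_lt_top.ne
  have hH₁fin : volume H₁ ≠ ∞ := hH₁BM.2.measure_lt_top.ne
  have hH₁0 : 0 < volume H₁ := by
    rcases eq_or_lt_of_le (bot_le : (0 : ℝ≥0∞) ≤ volume H₁) with h0 | h0
    · rw [← h0] at hsp
      simp at hsp
    · exact h0
  have hκm : ∀ b : ℤ, MeasurableSet {z | z ∈ H₁ ∧ κ z ≤ b} := by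
    intro b
    have : {z | z ∈ H₁ ∧ κ z ≤ b} = H₁ ∩ {z | z ∈ H ∧ κ z ≤ b} := by
      ext z
      constructor
      · rintro ⟨h1, h2⟩
        exact ⟨h1, hH₁H h1, h2⟩
      · rintro ⟨h1, _, h2⟩
        exact ⟨h1, h2⟩
    rw [this]
    exact hH₁BM.1.inter (hKap.1 b)
  -- the young charges
  set Ak : ℤ → ℕ → Set Pl := fun k _ => {z | z ∈ H₁ ∧ k < κ z + ((64 * g : ℕ) : ℤ)} with hAk
  set R : ℤ → ℕ → Set Pl := fun k _ =>
    {z | z ∈ H₁ ∧ κ z + 64 * (g : ℤ) ≤ k ∧ k ≤ κ z + L₀ * (g : ℤ)} with hR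
  have hage := hAGE p CH E H H₁ u q (64 * g) J sl fl D θ m D' ω hChg hE hH hHE hH₁BM.1 hH₁H hD'0
    hD (by linarith) hθ hm hFbE
  have hage2 : ch p u J ω Ak ≤ ENNReal.ofReal (lam / 8) * volume H₁ := by
    refine hage.trans ?_
    have e1 : (2 : ℝ) ^ (-(p * u)) * (CA * CH / D') = CA * CH / M := by
      rw [hD']
      field_simp
    have e2 : CA * CH / M * 4 ≤ lam / 16 := by
      have h1 : (64 * CA + 322560 * CD) * CH / M = 64 * (CA * CH / M) + 322560 * CD * CH / M := by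
        ring
      have h2 : 0 ≤ 322560 * CD * CH / M := by positivity
      rw [h1] at hCM
      linarith
    have e3 : ENNReal.ofReal ((2 : ℝ) ^ (-(p * u)) * (CA * CH / D')) * volume H
        ≤ ENNReal.ofReal (lam / 16) * volume H₁ := by
      rw [e1]
      calc ENNReal.ofReal (CA * CH / M) * volume H
          ≤ ENNReal.ofReal (CA * CH / M) * (4 * volume H₁) := by gcongr
        _ = ENNReal.ofReal (CA * CH / M * 4) * volume H₁ := by
            rw [ENNReal.ofReal_mul (by positivity), ← mul_assoc]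
            norm_num
        _ ≤ _ := by gcongr
    have e4 : ENNReal.ofReal ((2 : ℝ) ^ (-(p * u)) * (((64 * g : ℕ) : ℝ) * J.card *
        (35 / (m * θ)))) * volume H₁ ≤ ENNReal.ofReal (lam / 16) * volume H₁ := by
      gcongr
      push_cast
      exact hyou
    calc _ ≤ ENNReal.ofReal (lam / 16) * volume H₁ + ENNReal.ofReal (lam / 16) * volume H₁ :=
          add_le_add e3 e4
      _ = ENNReal.ofReal (lam / 8) * volume H₁ := by
          rw [← add_mul, ← ENNReal.ofReal_add (by positivity) (by positivity)]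
          congr 2
          ring
  -- the charge of H₁
  have hRm : ∀ (k : ℤ) (j : ℕ), MeasurableSet (R k j) := by
    intro k j
    have : R k j = {z | z ∈ H₁ ∧ κ z ≤ k - 64 * (g : ℤ)} \
        {z | z ∈ H₁ ∧ κ z ≤ k - L₀ * (g : ℤ) - 1} := by
      ext z
      simp only [hR, mem_setOf_eq, mem_diff, not_and, not_le]
      constructor
      · rintro ⟨h1, h2, h3⟩
        exact ⟨⟨h1, by linarith⟩, fun _ => by linarith⟩
      · rintro ⟨⟨h1, h2⟩, h3⟩
        have := h3 h1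
        exact ⟨h1, by linarith, by omega⟩
    rw [this]
    exact (hκm _).diff (hκm _)
  have hsplit : ∀ (k : ℤ) (j : ℕ),
      ∫⁻ z in H₁, ω k j z ≤ (∫⁻ z in Ak k j, ω k j z) + ∫⁻ z in R k j, ω k j z := by
    intro k j
    set Z : Set Pl := {z | z ∈ H₁ ∧ κ z ≤ k - L₀ * (g : ℤ) - 1} with hZ
    have hZ0 : ∫⁻ z in Z, ω k j z = 0 := by
      rw [setLIntegral_congr_fun (hκm _) (g := fun _ => (0 : ℝ≥0∞))]
      · simp
      · intro z hz
        by_contra hne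
        obtain ⟨_, hzE, _⟩ := hChg.supp k j z hne
        have h1 : z ∉ Fb E D (k - 2 ^ (q + 1)) := hzE.2
        apply h1
        have h2 : κ z ≤ k - 2 ^ (q + 1) := by
          have h3 : ((2 : ℤ) ^ (q + 1)) ≤ L₀ * (g : ℤ) := by exact_mod_cast hqL
          have := hz.2
          linarith
        exact ((hkp z (hH₁H hz.1) _).1 h2).2
    have hcov : H₁ ⊆ (Ak k j ∪ R k j) ∪ Z := by
      intro z hz
      by_cases h1 : k < κ z + ((64 * g : ℕ) : ℤ)
      · exact Or.inl (Or.inl ⟨hz, h1⟩)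
      · by_cases h2 : k ≤ κ z + L₀ * (g : ℤ)
        · refine Or.inl (Or.inr ⟨hz, ?_, h2⟩)
          push_cast at h1
          linarith
        · exact Or.inr ⟨hz, by omega⟩
    calc ∫⁻ z in H₁, ω k j z ≤ ∫⁻ z in (Ak k j ∪ R k j) ∪ Z, ω k j z :=
          lintegral_mono_set hcov
      _ ≤ (∫⁻ z in Ak k j ∪ R k j, ω k j z) + ∫⁻ z in Z, ω k j z := lintegral_union_le _ _ _
      _ = ∫⁻ z in Ak k j ∪ R k j, ω k j z := by rw [hZ0, add_zero]
      _ ≤ _ := lintegral_union_le _ _ _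
  have hcH : ∫⁻ z in H₁, cg p u J ω z ≤ ch p u J ω Ak + ch p u J ω R := by
    unfold cg ch
    rw [lintegral_const_mul' _ _ ENNReal.ofReal_ne_top, ← mul_add]
    gcongr
    rw [lintegral_tsum (fun k => (Finset.measurable_sum J fun j _ => hChg.meas k j).aemeasurable),
      ← ENNReal.tsum_add]
    refine ENNReal.tsum_le_tsum fun k => ?_
    rw [lintegral_finset_sum _ (fun j _ => hChg.meas k j), ← Finset.sum_add_distrib]
    exact Finset.sum_le_sum fun j _ => hsplit k j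
  have hlow : ENNReal.ofReal lam * volume H₁ ≤ ∫⁻ z in H₁, cg p u J ω z := by
    rw [← setLIntegral_const]
    exact setLIntegral_mono' hH₁BM.1 fun z hz => hcg z (hH₁H hz)
  have hchR : ENNReal.ofReal (lam / 2) * volume H₁ ≤ ch p u J ω R := by
    have h1 : ENNReal.ofReal (lam / 2) * volume H₁ + ENNReal.ofReal (lam / 2) * volume H₁
        ≤ ENNReal.ofReal (lam / 2) * volume H₁ + ch p u J ω R := by
      calc _ = ENNReal.ofReal lam * volume H₁ := by
            rw [← add_mul, ← ENNReal.ofReal_add (by positivity) (by positivity)]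
            congr 2
            ring
        _ ≤ ch p u J ω Ak + ch p u J ω R := hlow.trans hcH
        _ ≤ ENNReal.ofReal (lam / 8) * volume H₁ + ch p u J ω R := by gcongr
        _ ≤ _ := by
            gcongr
            linarith
    exact (ENNReal.add_le_add_iff_left
      (ENNReal.mul_ne_top ENNReal.ofReal_ne_top hH₁fin)).1 h1
  have hint1 : ∫⁻ z, cg p u J ω z ≤ ENNReal.ofReal (4 / lam) * volume H₁ := by
    refine hint.trans ?_
    calc ENNReal.ofReal (1 / lam) * volume H ≤ ENNReal.ofReal (1 / lam) * (4 * volume H₁) := by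
          gcongr
      _ = _ := by
          rw [show (4 : ℝ) / lam = 1 / lam * 4 by ring, ENNReal.ofReal_mul (by positivity),
            ← mul_assoc]
          norm_num
  obtain ⟨l, k, hl0, ⟨z₀, hz₀, hz₀k⟩, hsum⟩ := hPLM p CH E H₁ u q g L₀ J sl fl D θ m (lam / 2)
    (4 / lam) ω κ R hChg hE hH₁BM hκm hg1 hL (by
      intro k j
      refine ⟨hRm k j, fun z hz => hz.1, fun z hz => hz.2⟩)
    hm hθ (by positivity) (by positivity) hH₁0 hchR hint1
  set F : Set Pl := Ly H₁ κ g l with hF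
  have hgZ : (0 : ℤ) < g := by exact_mod_cast hg1
  have hdiv : ∀ z : Pl, κ z / (g : ℤ) = l ↔ l * g ≤ κ z ∧ κ z < (l + 1) * g := by
    intro z
    constructor
    · intro h
      have h1 := Int.emod_add_mul_ediv (κ z) g
      have h2 := Int.emod_nonneg (κ z) hgZ.ne'
      have h3 := Int.emod_lt_of_pos (κ z) hgZ
      rw [h] at h1
      constructor
      · linarith
      · linarith
    · rintro ⟨h1, h2⟩
      apply le_antisymm
      · have : κ z / (g : ℤ) < l + 1 := Int.ediv_lt_of_lt_mul hgZ h2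
        omega
      · exact Int.le_ediv_of_mul_le hgZ h1
  have hFH : F ⊆ H₁ := fun z hz => hz.1
  have hFm : MeasurableSet F := by
    have : F = {z | z ∈ H₁ ∧ κ z ≤ (l + 1) * g - 1} \ {z | z ∈ H₁ ∧ κ z ≤ l * g - 1} := by
      ext z
      simp only [hF, Ly, mem_setOf_eq, mem_diff, not_and, not_le]
      constructor
      · rintro ⟨h1, h2⟩
        obtain ⟨h3, h4⟩ := (hdiv z).1 h2
        exact ⟨⟨h1, by omega⟩, fun _ => by omega⟩
      · rintro ⟨⟨h1, h2⟩, h3⟩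
        have := h3 h1
        exact ⟨h1, (hdiv z).2 ⟨by omega, by omega⟩⟩
    rw [this]
    exact (hκm _).diff (hκm _)
  have hFBM : BM F := ⟨hFm, hH₁BM.2.subset hFH⟩
  have hFfin : volume F ≠ ∞ := hFBM.2.measure_lt_top.ne
  have hDn : Dn F (9 * d₀) ((l + 3) * g) := by
    apply dn_of hLGR hEQ F _ d₀ hd₀.le
    intro y hy
    have hyl : κ y / (g : ℤ) = l := hy.2
    have hyN : y ∉ Ns H κ g d₀ := hy.1.2
    have hyH : y ∈ H := hy.1.1
    have h1 : ¬ (ENNReal.ofReal (d₀ * (4 : ℝ) ^ (Rz κ g y)) <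
        volume (Ly H κ g (κ y / (g : ℤ)) ∩ DQ (Rz κ g y) y)) := fun h => hyN ⟨hyH, h⟩
    rw [not_lt] at h1
    have h2 : Rz κ g y = (l + 3) * g := by
      unfold Rz
      rw [hyl]
    rw [h2, hyl] at h1
    refine (measure_mono ?_).trans h1
    apply inter_subset_inter_left
    intro z hz
    exact ⟨hH₁H hz.1, hz.2⟩
  set θ' : ℝ := lam / 2 * θ / (2 * (L₀ + 2) * (4 / lam)) with hθ'
  have hθ'e : θ' = lam ^ 2 * θ / (16 * (L₀ + 2)) := by
    rw [hθ']
    field_simp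
    ring
  have hθ'0 : 0 < θ' := by
    rw [hθ'e]
    positivity
  have hθ'1 : θ' ≤ 1 := by
    rw [hθ'e, div_le_one (by positivity)]
    have h1 : lam ^ 2 ≤ 1 := pow_le_one₀ hlam.le hlam1
    have h2 : lam ^ 2 * θ ≤ 1 * 1 := mul_le_mul h1 hθ1 hθ.le (by norm_num)
    linarith
  set nst : ℝ := 1 + (2 : ℝ) ^ u * (A / g) ^ (1 / p) with hnst
  have hnst1 : 1 ≤ nst := by
    have : 0 ≤ (2 : ℝ) ^ u * (A / g) ^ (1 / p) :=
      mul_nonneg (by positivity) (Real.rpow_nonneg (by positivity) _)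
    linarith
  have hCDd : CD * (9 * d₀) ≤ θ' := by
    have h1 : (64 * CA + 322560 * CD) * d₀ ≤ lam ^ 2 * θ / (L₀ + 2) := hCd
    have h2 : lam ^ 2 * θ / (L₀ + 2) = 16 * θ' := by
      rw [hθ'e]
      field_simp
    rw [h2] at h1
    have h3 : 0 ≤ CA * d₀ := by positivity
    have h4 : 0 ≤ CD * d₀ := by positivity
    nlinarith
  have hkb : (l + 3) * (g : ℤ) + 18 * (g : ℤ) ≤ k - (u : ℤ) := by
    have h1 := ((hdiv z₀).1 hz₀.2).1
    have h2 : (u : ℤ) ≤ 43 * (g : ℤ) := by exact_mod_cast hug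
    linarith
  have hdrc := hDRC J g u sl fl F k ((l + 3) * g) (9 * d₀) θ' nst hCls.slope hFBM (by positivity)
    hCDd hθ'1 hg2 hkb hDn hnst1 (fun j hj => hCls.sep j hj g hg1)
  have hfin : ENNReal.ofReal (lam / 2 * (m * θ) * (2 : ℝ) ^ (p * u) / (70 * ((L₀ + 2) * g))) *
      volume F ≤ ENNReal.ofReal (CD * nst * (1 + 9 * d₀ / θ' ^ 2)) * volume F := by
    refine hsum.trans (le_trans (Finset.sum_le_sum fun j _ => measure_mono ?_) hdrc)
    rintro z ⟨hz1, hz2⟩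
    refine ⟨hz1.2, ?_⟩
    unfold Rich at hz2 ⊢
    exact hz2.trans (measure_mono (inter_subset_inter_left _ inter_subset_right))
  have hreal : lam / 2 * (m * θ) * (2 : ℝ) ^ (p * u) / (70 * ((L₀ + 2) * g)) ≤
      CD * nst * (1 + 9 * d₀ / θ' ^ 2) := by
    have h1 := (ENNReal.mul_le_mul_iff_left hl0.ne' hFfin).1 hfin
    exact (ENNReal.ofReal_le_ofReal_iff (by positivity)).1 h1
  -- conclusion
  have hX : 9 * d₀ / θ' ^ 2 = 2304 * (d₀ * (L₀ + 2) ^ 2 / (lam ^ 4 * θ ^ 2)) := by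
    rw [hθ'e]
    field_simp
    ring
  rw [hX] at hreal
  set X : ℝ := d₀ * (L₀ + 2) ^ 2 / (lam ^ 4 * θ ^ 2) with hXdef
  have hX0 : 0 ≤ X := by positivity
  have h2 : lam * (m * θ) * (2 : ℝ) ^ (p * u) / ((L₀ + 2) * g) =
      140 * (lam / 2 * (m * θ) * (2 : ℝ) ^ (p * u) / (70 * ((L₀ + 2) * g))) := by
    field_simp
    ring
  rw [h2]
  have h3 : CD * nst * (1 + 2304 * X) ≤ 2304 * (CD * nst * (1 + X)) := by
    have : 0 ≤ CD * nst := by positivity
    nlinarith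
  have h4 : 0 ≤ CA * nst * (1 + X) := by positivity
  calc 140 * (lam / 2 * (m * θ) * (2 : ℝ) ^ (p * u) / (70 * ((L₀ + 2) * g)))
      ≤ 140 * (2304 * (CD * nst * (1 + X))) := by linarith
    _ ≤ (64 * CA + 322560 * CD) * nst * (1 + X) := by
        have : (64 * CA + 322560 * CD) * nst * (1 + X) =
          64 * (CA * nst * (1 + X)) + 322560 * (CD * nst * (1 + X)) := by ring
        rw [this]
        linarith

end Pool.Agent.Helper15.ES
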